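import Pool.Agent.Helper93.TLE.StB
import Pool.Agent.Helper10.CV.M_N1

/-!
# Project TL, module HK: Hecke sums over any system of representatives, with signs
-/

set_option autoImplicit false

namespace Pool.Agent.Helper70.TLE

open Pool.Agent.Helper14.CV (Homog EqC act Tl StFar StFex)
open Pool.Agent.Helper28.WK (Tw evw)
open Pool.Agent.Helper4.TL Pool.Agent.Helper93.TLE

/-- The even number congruent to `j` modulo `l`. -/
private def ev2 (l j : ℕ) : ℕ := if j % 2 = 0 then j else j + l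

/-- Reindexing of the even representatives. -/
private theorem sum_ev2 {R : Type} [AddCommGroup R] {l : ℕ} (hl : l % 2 = 1) (F : ℕ → R) :
    ∑ j ∈ Finset.range l, F (ev2 l j) = ∑ j ∈ Finset.range l, F (2 * j) := by
  refine Finset.sum_nbij' (fun j => ev2 l j / 2) (fun j => (2 * j) % l) ?_ ?_ ?_ ?_ ?_
  · intro j hj
    rw [Finset.mem_range] at hj ⊢
    simp only [ev2]
    split_ifs <;> omega
  · intro j hj
    rw [Finset.mem_range] at hj ⊢
    exact Nat.mod_lt _ (by omega)
  · intro j hj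
    rw [Finset.mem_range] at hj
    simp only [ev2]
    split_ifs with h
    · rw [show 2 * (j / 2) = j by omega]
      exact Nat.mod_eq_of_lt hj
    · rw [show 2 * ((j + l) / 2) = j + l by omega, Nat.add_mod_right]
      exact Nat.mod_eq_of_lt hj
  · intro j hj
    rw [Finset.mem_range] at hj
    simp only [ev2]
    by_cases h : 2 * j < l
    · rw [Nat.mod_eq_of_lt h]
      rw [if_pos (by omega)]
      omega
    · have h1 : (2 * j) % l = 2 * j - l := by
        rw [Nat.mod_eq_sub_mod (by omega)]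
        exact Nat.mod_eq_of_lt (by omega)
      rw [h1, if_neg (by omega)]
      omega
  · intro j hj
    congr 1
    simp only [ev2]
    split_ifs <;> omega

/-- Module HK. -/
theorem hHk : SEHk := by
  intro p hp hp2 R _ n l G hl hlp hl2 hG δ hdet hdiv hδ
  have hnd : ¬ l ∣ p ^ n := by
    intro h
    have h1 := hl.dvd_of_dvd_pow h
    exact hlp ((Nat.prime_dvd_prime_iff_eq hl hp).1 h1)
  obtain ⟨π, hπ⟩ := Pool.Agent.Helper10.CV.hN1 (p ^ n) l hl hnd δ hdet
    (fun P => by push_cast; exact hdiv P) hδ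
  have hl0 : (l : ℤ) ≠ 0 := by exact_mod_cast hl.ne_zero
  have hlo : l % 2 = 1 := by
    rcases hl.eq_two_or_odd with h | h
    · exact absurd h hl2
    · exact h
  -- the upper translation
  obtain ⟨k0, hk0⟩ := hG.2 1 1 0 1 (by norm_num) (by simp) (by simp)
  have he0 : eps 1 1 0 1 = -1 := by decide
  have tr : ∀ u v : ℤ, (u ≠ 0 ∨ v ≠ 0) → -G u v = G (u + v) v + -k0 := by
    intro u v huv
    have h := hk0 u v huv
    rw [he0] at h
    simp only [act, Pi.smul_apply, neg_smul, one_smul, one_mul, zero_mul, zero_add] at h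
    rw [h]
    abel
  -- one representative
  have key : ∀ P : Fin (l + 1), ∃ k : R, ∀ x y : ℤ, (x ≠ 0 ∨ y ≠ 0) →
      eps (δ P 0 0) (δ P 0 1) (δ P 1 0) (δ P 1 1) •
        G (δ P 0 0 * x + δ P 0 1 * y) (δ P 1 0 * x + δ P 1 1 * y) =
        (if (π P : ℕ) < l then G (x + ((ev2 l (π P : ℕ) : ℕ) : ℤ) * y) (l * y)
          else G (l * x) y) + k := by
    intro P
    obtain ⟨γ, hγ, hγ2, he⟩ := hπ P
    rw [Matrix.det_fin_two] at hγ
    obtain ⟨k, hk⟩ := hG.2 (γ 0 0) (γ 0 1) (γ 1 0) (γ 1 1) hγ (by simp)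
      (by push_cast at hγ2; exact hγ2)
    have ho1 : ¬ (2 : ℤ) ∣ γ 0 0 * γ 1 1 - γ 0 1 * γ 1 0 := by rw [hγ]; decide
    have hlz : (l : ℤ) % 2 = 1 := by omega
    by_cases hP : (π P : ℕ) < l
    · rw [if_pos hP] at he
      have em : eps (δ P 0 0) (δ P 0 1) (δ P 1 0) (δ P 1 1) =
          eps (γ 0 0) (γ 0 1) (γ 1 0) (γ 1 1) * eps 1 ((π P : ℕ) : ℤ) 0 l := by
        rw [← eps_mul ho1 (a' := 1) (b' := ((π P : ℕ) : ℤ)) (c' := 0) (d' := (l : ℤ)) (by omega), he]
        simp [Matrix.mul_apply, Fin.sum_univ_two]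
      have ev : ∀ x y : ℤ, (x ≠ 0 ∨ y ≠ 0) →
          eps (δ P 0 0) (δ P 0 1) (δ P 1 0) (δ P 1 1) •
            G (δ P 0 0 * x + δ P 0 1 * y) (δ P 1 0 * x + δ P 1 1 * y) =
          eps 1 ((π P : ℕ) : ℤ) 0 l • G (x + ((π P : ℕ) : ℤ) * y) (l * y) +
            eps (δ P 0 0) (δ P 0 1) (δ P 1 0) (δ P 1 1) • k := by
        intro x y hxy
        have hne : x + ((π P : ℕ) : ℤ) * y ≠ 0 ∨ (l : ℤ) * y ≠ 0 := by
          by_cases hq : y = 0
          · left
            rw [hq, mul_zero, add_zero]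
            tauto
          · right
            exact mul_ne_zero hl0 hq
        have hv : G (δ P 0 0 * x + δ P 0 1 * y) (δ P 1 0 * x + δ P 1 1 * y) =
            act (γ 0 0) (γ 0 1) (γ 1 0) (γ 1 1) G (x + ((π P : ℕ) : ℤ) * y) (l * y) := by
          rw [he]
          unfold act
          simp only [Matrix.mul_apply, Fin.sum_univ_two, Matrix.of_apply, Matrix.cons_val',
            Matrix.cons_val_zero, Matrix.cons_val_one]
          congr 1 <;> ring
        rw [hv, hk _ _ hne, smul_add]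
        congr 1
        rw [em, Pi.smul_apply, Pi.smul_apply, smul_smul]
        congr 1
        have := eps_sq (γ 0 0) (γ 0 1) (γ 1 0) (γ 1 1)
        linear_combination (eps 1 ((π P : ℕ) : ℤ) 0 l) * this
      by_cases hj : (π P : ℕ) % 2 = 0
      · refine ⟨eps (δ P 0 0) (δ P 0 1) (δ P 1 0) (δ P 1 1) • k, fun x y hxy => ?_⟩
        rw [ev x y hxy, if_pos hP]
        congr 1
        rw [eps_id (by omega) (dvd_zero _), one_smul]
        simp only [ev2, if_pos hj]
      · refine ⟨-k0 + eps (δ P 0 0) (δ P 0 1) (δ P 1 0) (δ P 1 1) • k, fun x y hxy => ?_⟩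
        have hne : x + ((π P : ℕ) : ℤ) * y ≠ 0 ∨ (l : ℤ) * y ≠ 0 := by
          by_cases hq : y = 0
          · left
            rw [hq, mul_zero, add_zero]
            tauto
          · right
            exact mul_ne_zero hl0 hq
        rw [ev x y hxy, if_pos hP, ← add_assoc]
        congr 1
        have e1 : eps 1 ((π P : ℕ) : ℤ) 0 l = -1 := by
          unfold eps
          rw [if_pos]
          omega
        rw [e1, neg_smul, one_smul, tr _ _ hne]
        congr 1
        simp only [ev2, if_neg hj]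
        push_cast
        congr 1
        ring
    · rw [if_neg hP] at he
      have em : eps (δ P 0 0) (δ P 0 1) (δ P 1 0) (δ P 1 1) =
          eps (γ 0 0) (γ 0 1) (γ 1 0) (γ 1 1) := by
        have e2 : eps (l : ℤ) 0 0 1 = 1 := eps_id (dvd_zero _) (dvd_zero _)
        have h3 := eps_mul ho1 (a' := (l : ℤ)) (b' := 0) (c' := 0) (d' := 1) (by omega)
        rw [e2] at h3
        have h4 := h3.trans (mul_one _)
        rw [← h4, he]
        simp [Matrix.mul_apply, Fin.sum_univ_two]
      refine ⟨eps (δ P 0 0) (δ P 0 1) (δ P 1 0) (δ P 1 1) • k, fun x y hxy => ?_⟩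
      have hne : (l : ℤ) * x ≠ 0 ∨ y ≠ 0 := by
        rcases hxy with h | h
        · exact Or.inl (mul_ne_zero hl0 h)
        · exact Or.inr h
      have hv : G (δ P 0 0 * x + δ P 0 1 * y) (δ P 1 0 * x + δ P 1 1 * y) =
          act (γ 0 0) (γ 0 1) (γ 1 0) (γ 1 1) G (l * x) y := by
        rw [he]
        unfold act
        simp only [Matrix.mul_apply, Fin.sum_univ_two, Matrix.of_apply, Matrix.cons_val',
          Matrix.cons_val_zero, Matrix.cons_val_one]
        congr 1 <;> ring
      rw [hv, hk _ _ hne, smul_add, if_neg hP]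
      congr 1
      rw [em, Pi.smul_apply, Pi.smul_apply, smul_smul, eps_sq, one_smul]
  choose k hk using key
  refine ⟨∑ P, k P, fun x y hxy => ?_⟩
  have h1 : ∑ P, eps (δ P 0 0) (δ P 0 1) (δ P 1 0) (δ P 1 1) •
      G (δ P 0 0 * x + δ P 0 1 * y) (δ P 1 0 * x + δ P 1 1 * y) =
      ∑ P, ((if (π P : ℕ) < l then G (x + ((ev2 l (π P : ℕ) : ℕ) : ℤ) * y) (l * y)
        else G (l * x) y) + k P) :=
    Finset.sum_congr rfl fun P _ => hk P x y hxy
  refine h1.trans ?_
  rw [Finset.sum_add_distrib]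
  congr 1
  have h2 := Equiv.sum_comp π (fun P : Fin (l + 1) =>
    if (P : ℕ) < l then G (x + ((ev2 l (P : ℕ) : ℕ) : ℤ) * y) (l * y) else G (l * x) y)
  refine h2.trans ?_
  rw [Fin.sum_univ_castSucc]
  unfold Tl
  rw [add_comm]
  congr 1
  · simp
  · have h3 := sum_ev2 hlo (fun m : ℕ => G (x + (m : ℤ) * y) (l * y))
    rw [Finset.sum_range] at h3
    refine Eq.trans (Finset.sum_congr rfl fun i _ => ?_) (h3.trans
      (Finset.sum_congr rfl fun i _ => ?_))
    · rw [Fin.val_castSucc, if_pos i.2]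
    · push_cast
      rfl

end Pool.Agent.Helper70.TLE
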